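import Pool.Agent.N110.DV.Im
import Pool.Agent.N110.DV.Main
import Pool.Agent.N110.PA.Main

/-!
# Nef divisors whose class is invariant under an abelian group of pseudo-automorphisms

The theorem bounds the numerical dimension of a divisor `L` by the rank of an abelian group of
birational self-maps, isomorphisms in codimension one, of a variety `X'` which dominates `X`, if the
maps preserve the class of the pull-back of `L`. There is no condition on the Picard number. The
ingredients are the rank theorem for divisors (`rank_mainD`), the growth of the degrees for groups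
all of whose elements `≠ 1` have positive entropy (`growthN`), the numerical dimension of images
(`nuLt_img`), and the theorem that nef divisors of numerical dimension zero on varieties of
irregularity zero are torsion (`trivialD`).
-/

set_option autoImplicit false

open FF Pool.Agent.W602.GT Pool.Agent.Y172 Pool.Agent.R887 Pool.Agent.N110 Pool.Agent.N110.DV

/-- Let `X'` be a normal projective variety of dimension `n ≥ 1` with generic point `y'`. Let `ℤ ^ r`
act on `X'` by birational self-maps `f_v` which are isomorphisms in codimension one (on a variety with
terminal singularities and torsion canonical class every birational self-map is one), given by the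
automorphisms `φ v = f_v^*` of the function field. Let `s ≥ 1` be at most the growth rank: the degrees
of the maps `f_v` grow subexponentially only along linear subspaces of `ℝ ^ r` of codimension at least
`s`; or let `s = r` and suppose that `f_v` has positive entropy (the first dynamical degree is greater
than `1`) for all `v ≠ 0` (in this case we use that the group of the divisors on `X'` modulo numerical
equivalence is finitely generated, the theorem of Néron and Severi, `NeronSeveri`). Let `L'` be a
`ℚ`-divisor on `X'` whose numerical class is invariant: for all `v` the divisor `L' - f_v^* L'` is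
pseudo-effective, that is, numerically trivial (`v` may be replaced by `-v`).

Let `X` be any normal projective variety and `L` a `ℚ`-divisor on `X`, and let `X' ⇢ X` be a dominant
generically finite rational map, given by the homomorphism `π` of the function fields, which
contracts no prime divisors, such that `L' - π^* L` is pseudo-effective: for instance `X = X'` and
`L = L'`, or a finite quotient map and `L' = π^* L`. The map has nothing to do with the maps `f_v`.

Then `s ≤ n - 1`, the numerical dimension of `L` is at most `n - 1 - s`, and so is the Iitaka
dimension. If the Iitaka dimension is at least `n - 1 - s` then `L` is abundant: the Iitaka dimension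
and the numerical dimension are equal (if `X` is klt, `K_X` torsion and `L` nef then `L` is semiample,
by a theorem of Kawamata which is not formalized here). If `s = n - 1`, `L` is nef and the
irregularity of `X` is zero, then `L` is torsion, so semiample: `m L` is the divisor of a rational
function for some `m ≥ 1`. -/
theorem Pool.Agent.Results.MP_cda8c3_ag.InvariantClassRank.result
    {K K' : Type} [Field K] [Algebra ℂ K] [Field K'] [Algebra ℂ K'] {N N' n : ℕ}
    {y : Fin (N + 1) → K} {y' : Fin (N' + 1) → K'} (hy : NormalModel y) (hy' : NormalModel y')
    (hn : Algebra.trdeg ℂ K = n) (hn' : Algebra.trdeg ℂ K' = n) (hn0 : 0 < n) {r s : ℕ}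
    (hs : 0 < s) {φ : (Fin r → ℤ) → (K' ≃ₐ[ℂ] K')} (hφ : ∀ u v, φ (u + v) = φ u * φ v)
    (hiso : ∀ v, PseudoAut (φ v) y')
    (hrank : GrowthRankGe φ y' n s ∨
      (s = r ∧ NeronSeveri y' ∧ ∀ v, v ≠ 0 → 1 < dynDegree (φ v) y' n 1))
    {L' : Place ℂ K' → ℚ} (hL' : {P | IsPrimeDivisor y' P ∧ L' P ≠ 0}.Finite)
    (hcl : ∀ v, ClassLe (φ v) y' L')
    {L : Place ℂ K → ℚ} (hL : {P | IsPrimeDivisor y P ∧ L P ≠ 0}.Finite) {π : K →ₐ[ℂ] K'}
    (hπ : ImgClassLe π y L y' L') :
    s < n ∧ NuLt y n L (n - s) ∧ ¬ IitakaGe y L (n - s) ∧
      (IitakaGe y L (n - s - 1) → AbundantD y n L) ∧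
      (s + 1 = n → NefD y n L → IrregularityZero y → ∃ m : ℕ, 1 ≤ m ∧ ∃ g : K, g ≠ 0 ∧
        ∀ P, IsPrimeDivisor y P → (P.ord g : ℚ) = m * L P) := by
  have hgr : GrowthRankGe φ y' n s := by
    rcases hrank with h | ⟨rfl, hN, hent⟩
    · exact h
    · exact RK.growthRank_of_exp (PA.growthN hy' hn' hn0 hN hs hφ hiso hent)
  obtain ⟨h1, h2⟩ := rank_mainD hy' hn' hn0 hL' hs hφ hiso hcl hgr
  have key := nuLt_img hy hy' hn hn' hπ (Nat.sub_le n s) h2
  refine ⟨h1, key, iitaka_lt hy hn (Nat.sub_le n s) key, fun h => ⟨n - s - 1, h, ?_⟩,
    fun h3 hnef hq => ?_⟩
  · rwa [show n - s - 1 + 1 = n - s by omega]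
  · rw [show n - s = 1 by omega] at key
    obtain ⟨m, hm, g, hg0, hg⟩ := trivialD hy hn hn0 hL hq hnef key
    refine ⟨m, hm, g⁻¹, inv_ne_zero hg0, fun P hP => ?_⟩
    have h4 := hg P hP
    rw [P.ord_inv]
    push_cast
    linarith
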