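import Pool.Agent.N110.CC.V

/-!
# Divisors on finite images whose class is in an invariant subspace of the Néron-Severi space

The generalization of `MaximalRankImages` to varieties of arbitrary Picard number: only the span of a
part of the divisor classes, an invariant rational subspace of dimension `r + 1`, is used. The main
step is `span_img`.
-/

set_option autoImplicit false

open FF Pool.Agent.W602.GT Pool.Agent.Y172 Pool.Agent.R887 Pool.Agent.N110
open Pool.Agent.N110.NV Pool.Agent.N492.PA Pool.Agent.N110.CC

/-- Let `X'` be a normal projective variety of dimension `n ≥ 1`, with generic point `y'`. Let the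
vectors `c' P` be the classes of the prime divisors in `N¹(X') = ℤ ^ ρ`; there is no condition on the
Picard number. Let `ℤ ^ r`, `r ≥ 1`, act on `X'` by pseudo-automorphisms `f_v`, given by the
automorphisms `φ v = f_v^*` of the function field, such that `f_v` has positive entropy (the first
dynamical degree is greater than `1`) for all `v ≠ 0`. Let `V` be a subspace of dimension `r + 1` of
`N¹(X') ⊗ ℚ = ℚ ^ ρ` which is invariant (the pull backs by the maps `f_v` map `V` into itself) and
contains the class of a big divisor `B` (an ample divisor, for instance).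

Let `X' → X` be a finite morphism onto a normal projective variety `X`, for instance `X = X'` or the
quotient by a finite group, given by the homomorphism `π` of the function fields (more generally, a
rational map which is a finite morphism in codimension one). The morphism has nothing to do with the
maps `f_v`. Let `L` be a pseudo-effective `ℚ`-divisor on `X`, for instance a nef divisor, such that
the class of the pull-back `L'` of `L` (the multiplicity of `L'` along `Q` is `e (L P)` if `Q` lies
over `P` with the ramification index `e`) is in `V`.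

Then `L` is numerically trivial (`-L` is pseudo-effective, too) or big. If it is not big and the
irregularity of `X` is zero, then it is torsion: `m L` is the divisor of a rational function for some
`m ≥ 1`. -/
theorem Pool.Agent.Results.MP_cda8c3_ag.InvariantSubspaces.result
    {K K' : Type} [Field K] [Algebra ℂ K] [Field K'] [Algebra ℂ K'] {N N' n r ρ : ℕ}
    {y : Fin (N + 1) → K} {y' : Fin (N' + 1) → K'} (hy : NormalModel y) (hy' : NormalModel y')
    (hn : Algebra.trdeg ℂ K = n) (hn' : Algebra.trdeg ℂ K' = n) (hn0 : 0 < n) (hr : 0 < r)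
    {c' : Place ℂ K' → Fin ρ → ℤ} (hc' : PicardBasis y' c')
    {φ : (Fin r → ℤ) → (K' ≃ₐ[ℂ] K')} (hφ : ∀ u v, φ (u + v) = φ u * φ v)
    (hps : ∀ v, PseudoAut (φ v) y') (hent : ∀ v, v ≠ 0 → 1 < dynDegree (φ v) y' n 1)
    {V : Submodule ℚ (Fin ρ → ℚ)} (hV : Module.finrank ℚ V = r + 1)
    (hst : ∀ v T, IsPullBack y' c' (φ v) T → ∀ q ∈ V, ∃ q' ∈ V, T (toR q) = toR q')
    {B : Place ℂ K' → ℚ} (hB : {P | IsPrimeDivisor y' P ∧ B P ≠ 0}.Finite)
    (hBV : cls y' (cQ c') B ∈ V) (hBb : BigD y' B)
    {π : K →ₐ[ℂ] K'} (hπ : FiniteMap π y y')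
    {L : Place ℂ K → ℚ} (hL : {P | IsPrimeDivisor y P ∧ L P ≠ 0}.Finite)
    (hLV : ∀ L' : Place ℂ K' → ℚ, {P | IsPrimeDivisor y' P ∧ L' P ≠ 0}.Finite →
      (∀ Q P e, IsPrimeDivisor y' Q → LiesOver π Q P e → L' Q = e * L P) →
        cls y' (cQ c') L' ∈ V)
    (hpsef : PsefD y L) :
    (PsefD y (fun P => -L P) ∧ (IrregularityZero y → ∃ m : ℕ, 1 ≤ m ∧ ∃ f : K, f ≠ 0 ∧
      ∀ P, IsPrimeDivisor y P → (P.ord f : ℚ) = m * L P)) ∨ BigD y L := by
  rcases span_img hy hy' hn hn' hn0 hr hc' hφ hps hent hV hst hB hBV hBb hπ hL hLV hpsef with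
    h | h
  · exact Or.inl ⟨h, fun hq => torsion hy hq hL hpsef h⟩
  · exact Or.inr h
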