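import Pool.Agent.W2helper74.CY.Main
import Pool.Agent.W2helper74.CY.Prod

/-!
# Nef and semiample divisors on quotients `(A × F_1 × ... × F_k) / G`

`A = V / Λ` is an abelian variety, the `F_i` are normal projective varieties with free class groups
`Cl(F_i) = ℤ^(ρ' i)`, so that `H^1(F_i, O) = 0`, and `F = F_1 × ... × F_k`, where `k ≥ 0`. A finite group
`G` acts on `A × F` by pairs `(a, φ)`, where `a` is an automorphism of `A` (not only of the group) and
`φ` an automorphism of `F`, and fixes an ample class; the action may have fixed points and fixed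
divisors, and it may permute the `F_i`. Let `X = (A × F) / G`. By the decomposition theorem each klt
variety `X` with `K_X ∼_ℚ 0` has a quasi-étale cover `A × F_1 × ... × F_k`, where the `F_i` are
irreducible Calabi-Yau or irreducible symplectic varieties.

The theorem says that all nef divisors on `X` are semiample if and only if `H^1(X, O_X) = 0` and, for
every class `β = (β_1, ..., β_k)` on `F` which is invariant under `G` and nef on each factor, the `β_i` are
semiample. So the abelian factor and the group are no obstruction: Q1 for `X` follows from Q1 for the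
`F_i`. It also gives a multiple without base points which depends only on the dimension of `A`, the
order of the finite group of automorphisms of the section ring of `F` by which `G` acts, and the
multiples for the `F_i`, and it describes the nef divisors on `X`.

For `k = 0` the varieties `X` are the quotients of abelian varieties.

The proof. A power of the factor of automorphy of a sheaf `𝓛` on `X` is a line bundle on the torus
quotient `V / base Γ = A / G`. If `H^1(X, O_X) = 0` and its Chern form is semidefinite, then a bounded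
power is generated by invariant theta functions, because the flat part is torsion (this is
`Pool.Agent.R800.UA.power_uni` of the starting files). They are multiplied by norms of sections on
`F`, which do not vanish at a given point. Ampleness of a twist (`Pool.Agent.R800.UB.ample_eff`) gives the
criterion for nefness. If `H^1(X, O_X) ≠ 0` there is a flat line bundle of infinite order, and it has no
sections by Liouville's theorem.

`IsProjectiveVariety`, `IsProduct`, `FreeF`, `NefF`, `IsNef`, `Generated` and `order` are defined in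
`Pool.Agent.W2helper74.CY.Defs`; `Cl`, `Grp`, `base`, `Inv`, `IsQuotient`, `Sheaf`, `IsChern`,
`SemiampleF` and `IsSemiample` in `Pool.Agent.X324.CF.Defs`; `HOneZero` in `Pool.Agent.TH735.AQ.Defs`;
`IsNefForm` and `IsPositiveForm` in `Pool.Agent.W594.SYZ.TQDefs`; `gl3 n` is the order of the group
`GL (2 n, F_3)`.
-/

set_option autoImplicit false

namespace Pool.Agent.Results.MP_cda8c3_ag.QuotientsOfProducts

open Pool.Agent.W594.SYZ2 Pool.Agent.TH735.AQ Pool.Agent.X324.CF Pool.Agent.W2helper74.CY
open Pool.Agent.R800.UA (gl3)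

/-- Let `F` be the product of the varieties `F_i`, and `X = (V × F) / Γ` a projective quotient of
`A × F` by a finite group.

1. A reflexive sheaf of rank one on `X` is nef if and only if its Chern form in the direction of `A` is
   semidefinite and its classes on the `F_i` are nef.
2. All nef sheaves on `X` are semiample if and only if `H^1(X, O_X) = 0` and for all invariant classes of
   `F` the following is true: if the parts on all `F_i` are nef, then they are semiample.
3. If `H^1(X, O_X) = 0`, `𝓛` is nef and the `m`-th multiples of its classes on the `F_i` are generated by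
   global sections, then `𝓛^{[M]}` is generated by global sections, where
   `M = 4 m |GL (2 n, F_3)|^6 |G^|` and `n = dim A`. Here `G^` is the finite group of the automorphisms
   of the section ring of `F` by which `Γ` acts, and `order Γ` is its order. -/
theorem result {V R : Type*} [NormedAddCommGroup V] [NormedSpace ℂ V] [FiniteDimensional ℂ V]
    [CommRing R] [Algebra ℂ R] {ρ : ℕ} (𝒜 : Cl ρ → Submodule ℂ R) [GradedAlgebra 𝒜] (u : Cl ρ)
    (hF : IsProjectiveVariety 𝒜 u) {K : Type*} [Fintype K] {ρ' : K → ℕ} {S : K → Type*}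
    [∀ i, CommRing (S i)] [∀ i, Algebra ℂ (S i)] (ℬ : ∀ i, Cl (ρ' i) → Submodule ℂ (S i))
    [∀ i, GradedAlgebra (ℬ i)] (t : ∀ i, Cl (ρ' i)) (e : Cl ρ ≃+ ∀ i, Cl (ρ' i))
    (ι : ∀ i, S i →ₐ[ℂ] R) (P : IsProduct 𝒜 u ℬ t e ι) (Γ : Grp V R) (hX : IsQuotient 𝒜 u Γ)
    (hproj : ∃ (𝓛 : Sheaf 𝒜 Γ) (H : V → V → ℂ), 𝓛.IsChern H ∧ IsPositiveForm H) :
    (∀ (𝓛 : Sheaf 𝒜 Γ) (H : V → V → ℂ), 𝓛.IsChern H →
      (IsNef u 𝓛 ↔ IsNefForm H ∧ ∀ i, NefF (ℬ i) (t i) (e 𝓛.deg i))) ∧
    ((∀ (𝓛 : Sheaf 𝒜 Γ) (H : V → V → ℂ), 𝓛.IsChern H → IsNef u 𝓛 → 𝓛.IsSemiample u) ↔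
      HOneZero (base Γ) ∧ ∀ β, Inv 𝒜 Γ β → (∀ i, NefF (ℬ i) (t i) (e β i)) →
        ∀ i, SemiampleF (ℬ i) (t i) (e β i)) ∧
    (HOneZero (base Γ) → ∀ (𝓛 : Sheaf 𝒜 Γ) (H : V → V → ℂ), 𝓛.IsChern H → IsNef u 𝓛 →
      ∀ m : ℕ, 0 < m → (∀ i, FreeF (ℬ i) (t i) m (e 𝓛.deg i)) →
        Generated u 𝓛 (m * (4 * gl3 (Module.finrank ℂ V) ^ 6 * order Γ))) := by
  have h1 : ∀ (𝓛 : Sheaf 𝒜 Γ) (H : V → V → ℂ), 𝓛.IsChern H →
      (IsNef u 𝓛 ↔ IsNefForm H ∧ ∀ i, NefF (ℬ i) (t i) (e 𝓛.deg i)) := fun 𝓛 H hc => by
    rw [nef_iff hF hX hproj hc, P.nef_iff]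
  refine ⟨h1, ⟨fun hall => ⟨hone_of hF hX hproj hall, fun β hβ hn => ?_⟩, ?_⟩, ?_⟩
  · exact P.semi_iff.1 (deg_of hF hX hproj hall hβ (P.nef_iff.2 hn))
  · rintro ⟨h01, hdeg⟩ 𝓛 H hc hn
    obtain ⟨hH, hd⟩ := (h1 𝓛 H hc).1 hn
    obtain ⟨m, hm, hfree⟩ := P.semi_iff.2 (hdeg 𝓛.deg 𝓛.inv hd)
    have := hX.fin_gal
    have hN : 0 < Nat.card (gal Γ) := Nat.card_pos
    have hg := Pool.Agent.R800.UA.gl3_pos (Module.finrank ℂ V)
    exact semi_of_gen (Nat.mul_pos hm (by positivity)) (gen_nef hX h01 rfl hc hH hfree)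
  · intro h01 𝓛 H hc hn m _ hfree
    exact gen_nef hX h01 rfl hc ((h1 𝓛 H hc).1 hn).1 (P.free hfree)

end Pool.Agent.Results.MP_cda8c3_ag.QuotientsOfProducts
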